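import Pool.Agent.W126.SecN

set_option autoImplicit false

/-!
# A lower bound for the number of pairs at distance two in an Eulerian oriented graph

For every Eulerian oriented graph `∑ |N₂⁺(v)| ≥ ∑ (d(v) + g(v) - (e(v) + t(v)) / d(v))`, where `e(v)` is the number
of arcs inside `N⁺(v)`, `t(v)` the number of directed triangles through `v` and `g(v)` the number of arcs into `v`
which are in a directed triangle. Therefore `2 ∑ |N₂⁺(v)|` is at least the number of arcs plus the number of
vertices which are not isolated, and the conjectured inequality `∑ |N₂⁺(v)| ≥ |E|` holds if there is no transitive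
triangle (for example if the underlying graph has no triangle), and more generally if in every transitive triangle
`(u, v), (v, w), (u, w)` the arc `(u, v)` is in a directed triangle and `d(v) ≤ d(u)`.

Design and proof: helper126.
-/

open Finset Pool.Agent.W126.SecN

namespace Pool.Agent.Results.MP_e5893c_co.AveragingBound

/-- Let `G` be an Eulerian oriented graph, `d(v)` the out-degree. (1) `∑ |N₂⁺(v)|` is at least
`∑ (d(v) + g(v) - (e(v) + t(v)) / d(v))`, with `e(v)` the number of arcs between out-neighbours of `v`, `t(v)` the
number of directed triangles through `v` and `g(v)` the number of arcs into `v` which are in a directed triangle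
(isolated vertices contribute 0). Hence (2) `2 ∑ |N₂⁺(v)|` is at least the number of arcs plus the number of
vertices which are not isolated, and (3) `∑ |N₂⁺(v)| ≥ ∑ d(v)` if for all arcs `(u, v), (v, w), (u, w)` the arc
`(u, v)` is in a directed triangle and `d(v) ≤ d(u)`. -/
theorem result (V : Type) [Fintype V] (G : Digraph V) (hd : ∀ u v, G.Adj u v → ¬ G.Adj v u)
    (he : ∀ v, (outN G v).card = (inN G v).card) :
    (∑ v, (((outN G v).card : ℝ) + good G v - ((arcsIn G v : ℝ) + tri G v) / (outN G v).card) ≤
      ∑ v, ((secN G v).card : ℝ)) ∧
    (∑ v, (outN G v).card + (univ.filter fun v => 0 < (outN G v).card).card ≤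
      2 * ∑ v, (secN G v).card) ∧
    ((∀ u v w, G.Adj u v → G.Adj v w → G.Adj u w →
        (outN G v).card ≤ (outN G u).card ∧ ∃ x, G.Adj v x ∧ G.Adj x u) →
      ∑ v, (outN G v).card ≤ ∑ v, (secN G v).card) := by
  refine ⟨main G hd he, ?_, cls G hd he⟩
  have h := half G hd he
  convert h using 3

end Pool.Agent.Results.MP_e5893c_co.AveragingBound
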