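import Pool.Agent.W126.SecN

set_option autoImplicit false

/-!
# Eulerian oriented graphs with few common neighbours

The conjectured inequality `∑ |N₂⁺(v)| ≥ ∑ |N⁺(v)|` holds for an Eulerian oriented graph if the numbers `c⁻` and
`c⁺` of the common in-neighbours and of the common out-neighbours of two distinct vertices always satisfy
`2 c⁻ c⁺ ≤ c⁻ + c⁺` if the two vertices are adjacent and `c⁻ c⁺ ≤ c⁻ + c⁺` if they are not, for example if no
out-degree is larger than 2. Proof by counting pairs of paths with two arcs with the same ends.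

Design and proof: helper126.
-/

open Finset Pool.Agent.W126.SecN

namespace Pool.Agent.Results.MP_e5893c_co.FewCommonNeighbours

/-- In an Eulerian oriented graph let `c⁻` and `c⁺` be the numbers of common in-neighbours and of common
out-neighbours of two vertices. If `2 c⁻ c⁺ ≤ c⁻ + c⁺` for all adjacent and `c⁻ c⁺ ≤ c⁻ + c⁺` for all distinct
nonadjacent vertices (this means: `c⁻ = 0` or `c⁺ = 0` or `c⁻ = c⁺ = 1` for adjacent, `c⁻ ≤ 1` or `c⁺ ≤ 1` or
`c⁻ = c⁺ = 2` for nonadjacent vertices) then `∑ |N₂⁺(v)| ≥ ∑ |N⁺(v)|`. -/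
theorem result (V : Type) [Fintype V] (G : Digraph V) (hd : ∀ u v, G.Adj u v → ¬ G.Adj v u)
    (he : ∀ v, (outN G v).card = (inN G v).card)
    (h1 : ∀ u v, G.Adj u v → 2 * (comIn G u v * comOut G u v) ≤ comIn G u v + comOut G u v)
    (h2 : ∀ u v, u ≠ v → ¬ G.Adj u v → ¬ G.Adj v u →
      comIn G u v * comOut G u v ≤ comIn G u v + comOut G u v) :
    ∑ v, (outN G v).card ≤ ∑ v, (secN G v).card :=
  few G hd he h1 h2

end Pool.Agent.Results.MP_e5893c_co.FewCommonNeighbours
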