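import Pool.Agent.W126.SecN

set_option autoImplicit false

/-!
# Regular oriented graphs

For an oriented graph in which all out-degrees are equal, `2 ∑ |N₂⁺(v)|` is at least the number of arcs plus the
number of arcs in directed triangles plus the number of vertices from which an arc starts which is in no directed
triangle.

Design and proof: helper126.
-/

open Finset Classical Pool.Agent.W126.SecN

namespace Pool.Agent.Results.MP_e5893c_co.RegularGraphs

/-- Let `G` be an oriented graph in which all out-degrees are equal (no assumption on the in-degrees). Then
`2 ∑ |N₂⁺(v)|` is at least the number of arcs, plus the number of arcs which are in a directed triangle, plus the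
number of vertices from which an arc starts which is in no directed triangle. -/
theorem result (V : Type) [Fintype V] (G : Digraph V) (hd : ∀ u v, G.Adj u v → ¬ G.Adj v u)
    (hr : ∀ u v, (outN G u).card = (outN G v).card) :
    ∑ v, (outN G v).card + ∑ v, good G v + (univ.filter fun v => (badOut G v).Nonempty).card ≤
      2 * ∑ v, (secN G v).card := by
  rcases isEmpty_or_nonempty V with h | ⟨⟨v₀⟩⟩
  · simp
  · exact reg G hd _ fun v => hr v v₀

end Pool.Agent.Results.MP_e5893c_co.RegularGraphs
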